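import Pool.Agent.W770.QP.Main

set_option autoImplicit false

/-!
### Quasi-proper maps of two-sheeted coverings of the disc

For **every** two-sheeted covering `φ : X → 𝔻` as in the problem (infinitely many branch values,
satisfying the Blaschke condition) there is a quasi-proper map of `X` which is not a finite or
infinite product of members of the class `𝓛`.

The example is `θ = τ_λ ∘ ψ`, where `τ_λ(w) = (λ - w) / (1 - conj λ w)`, `|λ| = 3/4`, and
`ψ = φ · (1/2 - ϑ) / (1 - ϑ/2)`; the argument of `λ` is chosen by Frostman's averaging so that
`θ · (θ ∘ σ)` has no singular inner factor.  Its zeros are never paired by `σ`, so that no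
nonconstant `b ∘ φ` divides it, while all the other members of `𝓛` (and the constants) take the same
value at all the branch points, at which `θ` takes the different values `τ_λ(a/2)`, `a` running
through the branch values.
-/

namespace Pool.Agent.Results.MP_fa6e01_an.NotAllProducts

open Pool.Agent.W770.QP
open scoped Manifold ContDiff

/-- **Negative answer to Q1, for every `X`.** -/
theorem result (X : Type) [TopologicalSpace X] [ChartedSpace ℂ X] [IsManifold 𝓘(ℂ) ⊤ X]
    (φ : X → ℂ) (σ : X → X) (ϑ : X → ℂ) (B : ℂ → ℂ) (h : TwoSheeted φ σ ϑ B) :
    ∃ θ : X → ℂ, QuasiProper θ ∧ ¬ IsProductOf (InL φ ϑ B) θ :=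
  main h

end Pool.Agent.Results.MP_fa6e01_an.NotAllProducts
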